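import Mathlib
import Pool.Agent.N891.KS.Stm

/-!
# Project KS (helper891), part LOC (helper572): a sphere looks like a plane
-/

set_option autoImplicit false

open MeasureTheory Set Metric
open scoped ENNReal Topology ContDiff

namespace Pool.Agent.N572.KS.LOC

open Pool.Agent.N891.KS

/-- a linear isometry which maps the direction `n` to the third axis -/
lemma exists_iso (n : E3) (hn : ‖n‖ = 1) : ∃ L : E3 ≃ₗᵢ[ℝ] E3, ∀ v : E3, (L v) 2 = inner ℝ n v := by
  set e : E3 := EuclideanSpace.single 2 (1 : ℝ) with he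
  have he1 : ‖e‖ = 1 := by rw [he]; simp
  obtain ⟨R, h1⟩ : ∃ R : E3 ≃ₗᵢ[ℝ] E3, R n = e :=
    ⟨(ℝ ∙ (n - e))ᗮ.reflection, Submodule.reflection_sub (by rw [hn, he1])⟩
  refine ⟨R, fun v => ?_⟩
  have h2 : ∀ w : E3, w 2 = inner ℝ e w := by
    intro w
    rw [he, EuclideanSpace.inner_single_left]
    simp
  have h3 : inner ℝ (R n) (R v) = inner ℝ n v := R.inner_map_map n v
  rw [h1] at h3
  rw [h2]
  exact h3

theorem t_LOC : Pool.Agent.N891.KS.S_LOC := by
  intro c r hr x hx S U hU hxU hSU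
  have hxr : ‖x - c‖ = r := by rwa [mem_sphere, dist_eq_norm] at hx
  set n : E3 := (1 / r) • (x - c) with hn
  have hn1 : ‖n‖ = 1 := by
    rw [hn, norm_smul, hxr, Real.norm_of_nonneg (by positivity)]
    field_simp
  have hnn : inner ℝ n n = (1 : ℝ) := by rw [real_inner_self_eq_norm_sq, hn1, one_pow]
  obtain ⟨L, hL⟩ := exists_iso n hn1
  set h : E3 → ℝ := fun y => (‖y - c‖ ^ 2 - r ^ 2) / (2 * r) - inner ℝ n (y - x) with hh
  set g : E3 → E3 := fun y => (y - x) + h y • n with hg
  have hsmh : ContDiff ℝ ∞ h := by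
    have a1 : ContDiff ℝ ∞ fun y : E3 => ‖y - c‖ ^ 2 :=
      (contDiff_id.sub contDiff_const).norm_sq ℝ
    have a2 : ContDiff ℝ ∞ fun y : E3 => inner ℝ n (y - x) :=
      contDiff_const.inner ℝ (contDiff_id.sub contDiff_const)
    exact ((a1.sub contDiff_const).div_const _).sub a2
  have hsm : ContDiff ℝ ∞ g :=
    (contDiff_id.sub contDiff_const).add (hsmh.smul contDiff_const)
  have hgx : g x = 0 := by
    rw [hg, hh]
    simp only [sub_self, inner_zero_right, hxr, sub_zero, zero_div, zero_smul, add_zero]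
  have hgi : ∀ y, inner ℝ n (g y) = (‖y - c‖ ^ 2 - r ^ 2) / (2 * r) := by
    intro y
    rw [hg, hh]
    simp only [inner_add_right, inner_smul_right, hnn]
    ring
  -- the derivative at `x`
  have hd : HasFDerivAt g (ContinuousLinearMap.id ℝ E3) x := by
    have h1 : HasFDerivAt (fun y : E3 => y - c) (ContinuousLinearMap.id ℝ E3) x :=
      (hasFDerivAt_id x).sub_const c
    have h2 : HasFDerivAt (fun y : E3 => y - x) (ContinuousLinearMap.id ℝ E3) x :=
      (hasFDerivAt_id x).sub_const x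
    have h3 : HasFDerivAt h (0 : E3 →L[ℝ] ℝ) x := by
      have h4 := (((h1.norm_sq).sub_const (r ^ 2)).mul_const (1 / (2 * r))).sub
        ((innerSL ℝ n).hasFDerivAt.comp x h2)
      have h5 : h = fun y => (‖y - c‖ ^ 2 - r ^ 2) * (1 / (2 * r)) -
          ((innerSL ℝ n : E3 →L[ℝ] ℝ) ∘ fun y : E3 => y - x) y := by
        funext y
        rw [hh]
        simp only [Function.comp, innerSL_apply_apply]
        ring
      rw [h5]
      refine h4.congr_fderiv ?_
      ext v
      simp only [ContinuousLinearMap.sub_apply, ContinuousLinearMap.smul_apply,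
        ContinuousLinearMap.comp_apply, innerSL_apply_apply, ContinuousLinearMap.id_apply,
        ContinuousLinearMap.zero_apply, smul_eq_mul, hn, inner_smul_left]
      simp only [nsmul_eq_mul, Nat.cast_ofNat, conj_trivial]
      field_simp
      ring
    have h6 := h2.add (h3.smul_const n)
    refine h6.congr_fderiv ?_
    ext v
    simp
  set ψ₀ : E3 → E3 := fun y => L (g y) with hψ₀
  have hsm0 : ContDiff ℝ ∞ ψ₀ := L.contDiff.comp hsm
  have hd0 : HasFDerivAt ψ₀ ((L.toContinuousLinearEquiv : E3 ≃L[ℝ] E3) : E3 →L[ℝ] E3) x := by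
    have h1 := (L.toContinuousLinearEquiv : E3 ≃L[ℝ] E3).hasFDerivAt.comp x hd
    exact h1
  have hinf : (∞ : WithTop ℕ∞) ≠ 0 := by simp
  let P : OpenPartialHomeomorph E3 E3 :=
    (hsm0.contDiffAt (x := x)).toOpenPartialHomeomorph ψ₀ hd0 hinf
  have hPx : x ∈ P.source :=
    (hsm0.contDiffAt (x := x)).mem_toOpenPartialHomeomorph_source hd0 hinf
  set O : Set E3 := {y | fderiv ℝ ψ₀ y ∈ range ((↑) : (E3 ≃L[ℝ] E3) → E3 →L[ℝ] E3)} with hO
  have hOo : IsOpen O :=
    ContinuousLinearEquiv.isOpen.preimage (hsm0.continuous_fderiv (by simp))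
  have hxO : x ∈ O := ⟨L.toContinuousLinearEquiv, hd0.fderiv.symm⟩
  let ψ : OpenPartialHomeomorph E3 E3 := P.restrOpen (U ∩ O) (hU.inter hOo)
  have hψ : (ψ : E3 → E3) = ψ₀ := rfl
  have hsrc : ψ.source = P.source ∩ (U ∩ O) := rfl
  refine ⟨ψ, ⟨hPx, hxU, hxO⟩, ?_, ?_, ?_, ⟨L, hd0⟩, ?_⟩
  · show L (g x) = 0
    rw [hgx, map_zero]
  · rw [hψ]
    exact hsm0.contDiffOn
  · intro a ha
    have h1 : ψ.symm a ∈ ψ.source := ψ.map_target ha
    obtain ⟨L', hL'⟩ := h1.2.2
    refine (OpenPartialHomeomorph.contDiffAt_symm ψ ha (f₀' := L') ?_ ?_).contDiffWithinAt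
    · rw [hψ, hL']
      exact (hsm0.differentiable (by simp) _).hasFDerivAt
    · rw [hψ]
      exact hsm0.contDiffAt
  · intro y hy
    have hyU : y ∈ U := hy.2.1
    have h1 : y ∈ S ↔ y ∈ sphere c r := by
      constructor
      · intro h
        have : y ∈ S ∩ U := ⟨h, hyU⟩
        rw [hSU] at this
        exact this.1
      · intro h
        have : y ∈ sphere c r ∩ U := ⟨h, hyU⟩
        rw [← hSU] at this
        exact this.1
    rw [h1]
    show y ∈ sphere c r ↔ (L (g y)) 2 = 0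
    rw [hL, hgi, mem_sphere, dist_eq_norm]
    have hr2 : (2 * r) ≠ 0 := by positivity
    rw [div_eq_zero_iff]
    constructor
    · intro h
      left
      rw [h, sub_self]
    · rintro (h | h)
      · have h2 : ‖y - c‖ ^ 2 = r ^ 2 := by linarith
        exact (pow_left_inj₀ (norm_nonneg _) hr.le (by norm_num)).1 h2
      · exact absurd h hr2

end Pool.Agent.N572.KS.LOC
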